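import Pool.Agent.Helper22.FSU.Basic

namespace Pool.Agent.Helper22.FSU

open Finset

theorem one_le_log_of_three_le {n : ℕ} (hn : 3 ≤ n) : 1 ≤ Real.log n := by
  have h : (3 : ℝ) ≤ n := by exact_mod_cast hn
  rw [Real.le_log_iff_exp_le (by linarith)]
  exact (Real.exp_one_lt_d9.le.trans (by norm_num)).trans h

theorem fact_lower (n : ℕ) (hn : 1 ≤ n) :
    Real.exp ((n : ℝ) * Real.log n - n) ≤ (n.factorial : ℝ) := by
  have h := Real.pow_div_factorial_le_exp (n : ℝ) (by positivity) n
  have hpos : (0 : ℝ) < n.factorial := by exact_mod_cast n.factorial_pos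
  have hn' : (0 : ℝ) < n := by exact_mod_cast hn
  rw [div_le_iff₀ hpos] at h
  rw [Real.exp_sub, div_le_iff₀ (Real.exp_pos _), mul_comm (n : ℝ), Real.exp_mul,
    Real.exp_log hn', Real.rpow_natCast]
  linarith

theorem log_fact_upper (n : ℕ) : Real.log (n.factorial : ℝ) ≤ (n : ℝ) * Real.log n := by
  rcases Nat.eq_zero_or_pos n with h | h
  · subst h; simp
  have h1 : (n.factorial : ℝ) ≤ (n : ℝ) ^ n := by exact_mod_cast Nat.factorial_le_pow n
  have hpos : (0 : ℝ) < n.factorial := by exact_mod_cast n.factorial_pos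
  have := Real.log_le_log hpos h1
  rwa [Real.log_pow] at this

theorem approx {η : ℝ} (hη : 0 < η) {n : ℕ} (hn : 3 ≤ n) (hη2 : 4 ≤ η * Real.log n) {P : ℝ}
    (hP : 0 < P)
    (h : |(n.factorial : ℝ) - P| ≤ Real.exp ((1 - η) * n * Real.log n)) :
    |Real.log (n.factorial : ℝ) - Real.log P| ≤ Real.exp (-(η / 2) * (n * Real.log n)) ∧
      Real.log P ≤ 2 * (n * Real.log n) := by
  have hn1 : (3 : ℝ) ≤ n := by exact_mod_cast hn
  have hlog := one_le_log_of_three_le hn
  set L := (n : ℝ) * Real.log n with hL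
  have hLn : (n : ℝ) ≤ L := by rw [hL]; nlinarith
  have hfac : (0 : ℝ) < n.factorial := by exact_mod_cast n.factorial_pos
  have hlow := fact_lower n (by omega)
  rw [← hL] at hlow
  have h1 : (1 - η) * n * Real.log n = (1 - η) * L := by rw [hL]; ring
  rw [h1] at h
  set r := P / (n.factorial : ℝ) with hr
  have hrpos : 0 < r := div_pos hP hfac
  have hr1 : |r - 1| ≤ Real.exp (-η * L + n) := by
    have : r - 1 = -(((n.factorial : ℝ) - P) / n.factorial) := by
      rw [hr]; field_simp; ring
    rw [this, abs_neg, abs_div, abs_of_pos hfac, div_le_iff₀ hfac]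
    calc |(n.factorial : ℝ) - P| ≤ Real.exp ((1 - η) * L) := h
      _ = Real.exp (-η * L + n) * Real.exp (L - n) := by rw [← Real.exp_add]; congr 1; ring
      _ ≤ Real.exp (-η * L + n) * n.factorial := by gcongr
  have hkey : 2 * (n : ℝ) ≤ (η / 2) * L := by
    rw [hL]
    have : (4 : ℝ) * n ≤ (η * Real.log n) * n := by nlinarith
    nlinarith
  have h2 : 2 * Real.exp (-η * L + n) ≤ Real.exp (-(η / 2) * L) := by
    have h2e : (2 : ℝ) ≤ Real.exp 1 := by
      have := Real.add_one_le_exp (1 : ℝ); linarith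
    calc 2 * Real.exp (-η * L + n) ≤ Real.exp 1 * Real.exp (-η * L + n) := by gcongr
      _ = Real.exp (1 + (-η * L + n)) := by rw [← Real.exp_add]
      _ ≤ Real.exp (-(η / 2) * L) := by
          apply Real.exp_le_exp.mpr
          nlinarith
  have h3 : Real.exp (-(η / 2) * L) ≤ 1 := by
    rw [Real.exp_le_one_iff]
    nlinarith
  have hr2 : |r - 1| ≤ 1 / 2 := by linarith
  have hrhalf : 1 / 2 ≤ r := by
    have := (abs_le.mp hr2).1
    linarith
  have hlogr : |Real.log r| ≤ 2 * |r - 1| := by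
    rw [abs_le]
    constructor
    · have h4 := Real.one_sub_inv_le_log_of_pos hrpos
      have h5 : r⁻¹ - 1 ≤ 2 * |r - 1| := by
        have h6 : r⁻¹ - 1 = (1 - r) / r := by field_simp
        rw [h6, div_le_iff₀ hrpos]
        have h7 : 1 - r ≤ |r - 1| := by rw [abs_sub_comm]; exact le_abs_self _
        have h8 : 0 ≤ |r - 1| := abs_nonneg _
        nlinarith
      linarith
    · have h4 := Real.log_le_sub_one_of_pos hrpos
      have h7 : r - 1 ≤ |r - 1| := le_abs_self _
      have h8 : 0 ≤ |r - 1| := abs_nonneg _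
      linarith
  have hdiff : |Real.log (n.factorial : ℝ) - Real.log P| = |Real.log r| := by
    rw [hr, Real.log_div hP.ne' hfac.ne', abs_sub_comm]
  constructor
  · rw [hdiff]
    linarith
  · have h9 : Real.log P ≤ Real.log (n.factorial : ℝ) + |Real.log r| := by
      rw [← hdiff, abs_sub_comm]
      have := le_abs_self (Real.log P - Real.log (n.factorial : ℝ))
      linarith
    have h10 := log_fact_upper n
    rw [← hL] at h10
    linarith

/-- Size of the exponents of an S-unit whose logarithm is at most `2 L`. -/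
theorem expo_bound {S : Finset ℕ} (hS : ∀ p ∈ S, Nat.Prime p) (k : ℕ → ℕ) {L : ℝ}
    (h : Real.log (su S k) ≤ 2 * L) {p : ℕ} (hp : p ∈ S) : (k p : ℝ) ≤ 3 * L := by
  rw [log_su hS] at h
  have h1 : (k p : ℝ) * Real.log p ≤ ∑ q ∈ S, (k q : ℝ) * Real.log q := by
    refine Finset.single_le_sum (f := fun q : ℕ => (k q : ℝ) * Real.log q) (fun q hq => ?_) hp
    have : (1 : ℝ) ≤ q := by exact_mod_cast (hS q hq).one_lt.le
    exact mul_nonneg (by positivity) (Real.log_nonneg this)
  have h2 : Real.log 2 ≤ Real.log p := by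
    apply Real.log_le_log (by norm_num)
    exact_mod_cast (hS p hp).two_le
  have h3 := Real.log_two_gt_d9
  have h4 : (k p : ℝ) * Real.log 2 ≤ 2 * L := by
    have : (k p : ℝ) * Real.log 2 ≤ (k p : ℝ) * Real.log p := by gcongr
    linarith
  have h5 : (0 : ℝ) ≤ k p := by positivity
  nlinarith

end Pool.Agent.Helper22.FSU
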