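import Mathlib

/-! Basic objects for the distance of factorials to S-units. -/

namespace Pool.Agent.Helper22.FSU

open Finset

/-- The product of the primes of `S` with exponents `k`. -/
def su (S : Finset ℕ) (k : ℕ → ℕ) : ℕ := ∏ p ∈ S, p ^ k p

theorem su_cast (S : Finset ℕ) (k : ℕ → ℕ) : (su S k : ℝ) = ∏ p ∈ S, (p : ℝ) ^ (k p) := by
  unfold su; push_cast; rfl

theorem su_pos {S : Finset ℕ} (hS : ∀ p ∈ S, Nat.Prime p) (k : ℕ → ℕ) : 0 < su S k := by
  unfold su
  exact Finset.prod_pos fun p hp => pow_pos (hS p hp).pos _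

theorem prod_su_pow {ι : Type} (T : Finset ι) (S : Finset ℕ) (k : ι → ℕ → ℕ) (a : ι → ℕ) :
    ∏ i ∈ T, (su S (k i)) ^ (a i) = su S (fun p => ∑ i ∈ T, a i * k i p) := by
  unfold su
  simp_rw [← Finset.prod_pow]
  rw [Finset.prod_comm]
  refine Finset.prod_congr rfl fun p _ => ?_
  rw [← Finset.prod_pow_eq_pow_sum]
  refine Finset.prod_congr rfl fun i _ => ?_
  rw [← pow_mul, mul_comm]

theorem log_su {S : Finset ℕ} (hS : ∀ p ∈ S, Nat.Prime p) (k : ℕ → ℕ) :
    Real.log (su S k) = ∑ p ∈ S, (k p : ℝ) * Real.log p := by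
  rw [su_cast, Real.log_prod]
  · refine Finset.sum_congr rfl fun p _ => ?_
    rw [Real.log_pow]
  · intro p hp
    have := (hS p hp).pos
    positivity

/-- Powers of factorials divide the factorial of the weighted sum, with a controlled quotient. -/
theorem fact_pow_mul (m c T : ℕ) (h : c * m ≤ T) :
    ∃ V : ℕ, (m.factorial) ^ c * V = (c * m).factorial ∧ V ≤ 2 ^ (c * T) := by
  induction c with
  | zero => exact ⟨1, by simp, by simp⟩
  | succ c ih =>
    obtain ⟨V, hV, hV2⟩ := ih (le_trans (Nat.mul_le_mul_right _ (Nat.le_succ c)) h)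
    refine ⟨V * ((c * m + m).choose m), ?_, ?_⟩
    · have := Nat.add_choose_mul_factorial_mul_factorial (c * m) m
      rw [Nat.succ_mul, ← this, ← hV, pow_succ]
      ring
    · have h1 : (c * m + m).choose m ≤ 2 ^ T := by
        refine le_trans (Nat.choose_le_two_pow _ _) (Nat.pow_le_pow_right (by norm_num) ?_)
        rw [Nat.succ_mul] at h
        exact h
      calc V * ((c * m + m).choose m) ≤ 2 ^ (c * T) * 2 ^ T := Nat.mul_le_mul hV2 h1
        _ = 2 ^ ((c + 1) * T) := by rw [← pow_add, Nat.succ_mul]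

theorem prod_fact_pow_mul {ι : Type} (s : Finset ι) (n a : ι → ℕ) (T : ℕ)
    (h : ∑ i ∈ s, a i * n i ≤ T) :
    ∃ V : ℕ, (∏ i ∈ s, ((n i).factorial) ^ (a i)) * V = (∑ i ∈ s, a i * n i).factorial ∧
      V ≤ 2 ^ ((∑ i ∈ s, (a i + 1)) * T) := by
  classical
  induction s using Finset.induction_on with
  | empty => exact ⟨1, by simp, by simp⟩
  | insert j s hj ih =>
    rw [Finset.sum_insert hj] at h
    obtain ⟨V, hV, hV2⟩ := ih (le_trans (Nat.le_add_left _ _) h)
    obtain ⟨W, hW, hW2⟩ := fact_pow_mul (n j) (a j) T (le_trans (Nat.le_add_right _ _) h)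
    have hb := Nat.add_choose_mul_factorial_mul_factorial (a j * n j) (∑ i ∈ s, a i * n i)
    refine ⟨W * V * ((a j * n j + ∑ i ∈ s, a i * n i).choose (∑ i ∈ s, a i * n i)), ?_, ?_⟩
    · rw [Finset.prod_insert hj, Finset.sum_insert hj, ← hb, ← hV, ← hW]
      ring
    · have h1 : (a j * n j + ∑ i ∈ s, a i * n i).choose (∑ i ∈ s, a i * n i) ≤ 2 ^ T :=
        le_trans (Nat.choose_le_two_pow _ _) (Nat.pow_le_pow_right (by norm_num) h)
      rw [Finset.sum_insert hj]
      calc W * V * ((a j * n j + ∑ i ∈ s, a i * n i).choose (∑ i ∈ s, a i * n i))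
          ≤ 2 ^ (a j * T) * 2 ^ ((∑ i ∈ s, (a i + 1)) * T) * 2 ^ T :=
            Nat.mul_le_mul (Nat.mul_le_mul hW2 hV2) h1
        _ = 2 ^ ((a j + 1 + ∑ i ∈ s, (a i + 1)) * T) := by
            rw [← pow_add, ← pow_add]; congr 1; ring

/-- Distinct positive integers have logarithms that are not too close. -/
theorem log_diff_lower (x y : ℕ) (hx : 0 < x) (hy : 0 < y) (hxy : x ≠ y) :
    1 / ((y : ℝ) + 1) ≤ |Real.log x - Real.log y| := by
  have hx' : (0 : ℝ) < x := by exact_mod_cast hx
  have hy' : (0 : ℝ) < y := by exact_mod_cast hy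
  rcases lt_or_gt_of_ne hxy with h | h
  · -- x < y
    have h1 : (x : ℝ) + 1 ≤ y := by exact_mod_cast h
    have h2 : Real.log x - Real.log y = Real.log (x / y) := (Real.log_div hx'.ne' hy'.ne').symm
    have h3 : Real.log (x / y) ≤ x / y - 1 := Real.log_le_sub_one_of_pos (by positivity)
    have h4 : (x : ℝ) / y - 1 ≤ - (1 / y) := by
      rw [div_sub_one hy'.ne', neg_div', div_le_div_iff_of_pos_right hy']
      linarith
    have h5 : 1 / ((y : ℝ) + 1) ≤ 1 / y := one_div_le_one_div_of_le hy' (by linarith)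
    rw [h2]
    have h6 := neg_le_abs (Real.log ((x : ℝ) / y))
    linarith
  · -- y < x
    have h1 : (y : ℝ) + 1 ≤ x := by exact_mod_cast h
    have h2 : Real.log x - Real.log y = Real.log (x / y) := (Real.log_div hx'.ne' hy'.ne').symm
    have h3 : 1 - ((x : ℝ) / y)⁻¹ ≤ Real.log (x / y) := Real.one_sub_inv_le_log_of_pos (by positivity)
    have h4 : 1 / ((y : ℝ) + 1) ≤ 1 - ((x : ℝ) / y)⁻¹ := by
      rw [inv_div]
      have : (y : ℝ) / x ≤ y / (y + 1) := by
        apply div_le_div_of_nonneg_left hy'.le (by positivity) h1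
      have h7 : 1 - (y : ℝ) / (y + 1) = 1 / (y + 1) := by
        field_simp; ring
      linarith
    rw [h2]
    have h6 := le_abs_self (Real.log ((x : ℝ) / y))
    linarith

/-- The relation lemma: a multiplicative relation with small coefficients between factorials that
are very close to S-units cannot be too precise unless it is exact. -/
theorem relation {S : Finset ℕ} (hS : ∀ p ∈ S, Nat.Prime p) {ι : Type} (s : Finset ι)
    (n : ι → ℕ) (k : ι → ℕ → ℕ) (a a' : ι → ℕ) (T w : ℕ)
    (hT : ∑ i ∈ s, a i * n i ≤ T) (hN : ∑ i ∈ s, a' i * n i ≤ ∑ i ∈ s, a i * n i)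
    (hw : ∀ p ∈ S, ∑ i ∈ s, a i * k i p ≤ ∑ i ∈ s, a' i * k i p + w)
    (hne : (∏ i ∈ s, ((n i).factorial) ^ (a i)) * ∏ i ∈ s, (su S (k i)) ^ (a' i) ≠
      (∏ i ∈ s, ((n i).factorial) ^ (a' i)) * ∏ i ∈ s, (su S (k i)) ^ (a i)) :
    1 / ((2 : ℝ) ^ ((∑ i ∈ s, (a i + 1)) * T) * (∏ p ∈ S, (p : ℝ)) ^ w + 1) ≤
      ∑ i ∈ s, |(a i : ℝ) - a' i| *
        |Real.log ((n i).factorial) - Real.log (su S (k i))| := by
  classical
  set F := ∏ i ∈ s, ((n i).factorial) ^ (a i) with hF
  set F' := ∏ i ∈ s, ((n i).factorial) ^ (a' i) with hF'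
  set Q := ∏ i ∈ s, (su S (k i)) ^ (a i) with hQ
  set Q' := ∏ i ∈ s, (su S (k i)) ^ (a' i) with hQ'
  have Fpos : 0 < F := Finset.prod_pos fun i _ => pow_pos (Nat.factorial_pos _) _
  have F'pos : 0 < F' := Finset.prod_pos fun i _ => pow_pos (Nat.factorial_pos _) _
  have Qpos : 0 < Q := Finset.prod_pos fun i _ => pow_pos (su_pos hS _) _
  have Q'pos : 0 < Q' := Finset.prod_pos fun i _ => pow_pos (su_pos hS _) _
  obtain ⟨V, hV, hV2⟩ := prod_fact_pow_mul s n a T hT
  obtain ⟨M, hM, -⟩ := prod_fact_pow_mul s n a' T (hN.trans hT)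
  have Vpos : 0 < V := by
    rcases Nat.eq_zero_or_pos V with h | h
    · rw [h, mul_zero] at hV
      exact absurd hV.symm (Nat.factorial_ne_zero _)
    · exact h
  obtain ⟨D, hD⟩ := Nat.factorial_dvd_factorial hN
  -- U
  set U := M * D with hU
  have hFU : F * V = F' * U := by
    rw [hV, hD, ← hM, hU]; ring
  have Upos : 0 < U := by
    rcases Nat.eq_zero_or_pos U with h | h
    · rw [h, mul_zero] at hFU
      have := Nat.mul_pos Fpos Vpos
      omega
    · exact h
  set e : ℕ → ℕ := fun p => ∑ i ∈ s, a i * k i p with he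
  set e' : ℕ → ℕ := fun p => ∑ i ∈ s, a' i * k i p with he'
  set u := su S (fun p => e p - e' p) with hu
  set v := su S (fun p => e' p - e p) with hv
  have upos : 0 < u := su_pos hS _
  have vpos : 0 < v := su_pos hS _
  have hQv : Q * v = Q' * u := by
    rw [hQ, hQ', prod_su_pow, prod_su_pow, hu, hv]
    unfold su
    rw [← Finset.prod_mul_distrib, ← Finset.prod_mul_distrib]
    refine Finset.prod_congr rfl fun p _ => ?_
    rw [← pow_add, ← pow_add]
    congr 1
    show e p + (e' p - e p) = e' p + (e p - e' p)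
    omega
  have hne' : U * v ≠ V * u := by
    intro h
    apply hne
    have h1 : F * v = F' * u := by
      have : V * (F * v) = V * (F' * u) := by
        calc V * (F * v) = (F * V) * v := by ring
          _ = F' * (U * v) := by rw [hFU]; ring
          _ = F' * (V * u) := by rw [h]
          _ = V * (F' * u) := by ring
      exact Nat.eq_of_mul_eq_mul_left Vpos this
    have h2 : v * (F * Q') = v * (F' * Q) := by
      calc v * (F * Q') = (F * v) * Q' := by ring
        _ = F' * (Q' * u) := by rw [h1]; ring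
        _ = F' * (Q * v) := by rw [hQv]
        _ = v * (F' * Q) := by ring
    exact Nat.eq_of_mul_eq_mul_left vpos h2
  have hkey := log_diff_lower (U * v) (V * u) (Nat.mul_pos Upos vpos) (Nat.mul_pos Vpos upos) hne'
  have c1 : (F : ℝ) ≠ 0 := by exact_mod_cast Fpos.ne'
  have c2 : (F' : ℝ) ≠ 0 := by exact_mod_cast F'pos.ne'
  have c3 : (Q : ℝ) ≠ 0 := by exact_mod_cast Qpos.ne'
  have c4 : (Q' : ℝ) ≠ 0 := by exact_mod_cast Q'pos.ne'
  have c5 : (U : ℝ) ≠ 0 := by exact_mod_cast Upos.ne'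
  have c6 : (V : ℝ) ≠ 0 := by exact_mod_cast Vpos.ne'
  have c7 : (u : ℝ) ≠ 0 := by exact_mod_cast upos.ne'
  have c8 : (v : ℝ) ≠ 0 := by exact_mod_cast vpos.ne'
  have l1 : Real.log F + Real.log V = Real.log F' + Real.log U := by
    rw [← Real.log_mul c1 c6, ← Real.log_mul c2 c5]
    congr 1; exact_mod_cast hFU
  have l2 : Real.log Q + Real.log v = Real.log Q' + Real.log u := by
    rw [← Real.log_mul c3 c8, ← Real.log_mul c4 c7]
    congr 1; exact_mod_cast hQv
  have l3 : Real.log ((U * v : ℕ) : ℝ) - Real.log ((V * u : ℕ) : ℝ) =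
      (Real.log F - Real.log F') - (Real.log Q - Real.log Q') := by
    push_cast
    rw [Real.log_mul c5 c8, Real.log_mul c6 c7]
    linarith
  have lF : Real.log F = ∑ i ∈ s, (a i : ℝ) * Real.log ((n i).factorial) := by
    rw [hF]; push_cast
    rw [Real.log_prod (fun i _ => by positivity)]
    exact Finset.sum_congr rfl fun i _ => by rw [Real.log_pow]
  have lF' : Real.log F' = ∑ i ∈ s, (a' i : ℝ) * Real.log ((n i).factorial) := by
    rw [hF']; push_cast
    rw [Real.log_prod (fun i _ => by positivity)]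
    exact Finset.sum_congr rfl fun i _ => by rw [Real.log_pow]
  have hpos : ∀ i, (0 : ℝ) < su S (k i) := fun i => by exact_mod_cast su_pos hS (k i)
  have lQ : Real.log Q = ∑ i ∈ s, (a i : ℝ) * Real.log (su S (k i)) := by
    rw [hQ]; push_cast
    rw [Real.log_prod (fun i _ => by have := hpos i; positivity)]
    exact Finset.sum_congr rfl fun i _ => by rw [Real.log_pow]
  have lQ' : Real.log Q' = ∑ i ∈ s, (a' i : ℝ) * Real.log (su S (k i)) := by
    rw [hQ']; push_cast
    rw [Real.log_prod (fun i _ => by have := hpos i; positivity)]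
    exact Finset.sum_congr rfl fun i _ => by rw [Real.log_pow]
  have l4 : (Real.log F - Real.log F') - (Real.log Q - Real.log Q') =
      ∑ i ∈ s, ((a i : ℝ) - a' i) * (Real.log ((n i).factorial) - Real.log (su S (k i))) := by
    rw [lF, lF', lQ, lQ', ← Finset.sum_sub_distrib, ← Finset.sum_sub_distrib,
      ← Finset.sum_sub_distrib]
    exact Finset.sum_congr rfl fun i _ => by ring
  have hup : |Real.log ((U * v : ℕ) : ℝ) - Real.log ((V * u : ℕ) : ℝ)| ≤
      ∑ i ∈ s, |(a i : ℝ) - a' i| *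
        |Real.log ((n i).factorial) - Real.log (su S (k i))| := by
    rw [l3, l4]
    refine (Finset.abs_sum_le_sum_abs _ _).trans (le_of_eq ?_)
    exact Finset.sum_congr rfl fun i _ => abs_mul _ _
  refine le_trans ?_ (hkey.trans hup)
  have hub : (u : ℝ) ≤ (∏ p ∈ S, (p : ℝ)) ^ w := by
    rw [hu, su_cast, ← Finset.prod_pow]
    refine Finset.prod_le_prod (fun p _ => by positivity) fun p hp => ?_
    apply pow_le_pow_right₀
    · exact_mod_cast (hS p hp).one_lt.le
    · have := hw p hp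
      show e p - e' p ≤ w
      have h1 : e p ≤ e' p + w := this
      omega
  have hVb : (V : ℝ) ≤ (2 : ℝ) ^ ((∑ i ∈ s, (a i + 1)) * T) := by exact_mod_cast hV2
  apply one_div_le_one_div_of_le
  · positivity
  · push_cast
    have h0 : (0 : ℝ) ≤ V := by positivity
    have h0' : (0 : ℝ) ≤ u := by positivity
    have := mul_le_mul hVb hub h0' (by positivity)
    linarith

end Pool.Agent.Helper22.FSU
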