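import Pool.Agent.Helper22.FSU.Smooth

namespace Pool.Agent.Helper22.FSU

open Finset

/-- Closeness of `n!` to an S-unit. -/
def Near (S : Finset ℕ) (C : ℝ) (n : ℕ) (k : ℕ → ℕ) : Prop :=
  |(n.factorial : ℝ) - su S k| ≤ Real.exp (C * n * Real.log n)

theorem logprod_nonneg {S : Finset ℕ} (hS : ∀ p ∈ S, Nat.Prime p) :
    1 ≤ ∏ p ∈ S, (p : ℝ) := by
  have h1 : 1 ≤ ∏ p ∈ S, p := Finset.one_le_prod' fun p hp => (hS p hp).one_lt.le
  have h2 : ((1 : ℕ) : ℝ) ≤ ((∏ p ∈ S, p : ℕ) : ℝ) := Nat.cast_le.mpr h1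
  rwa [Nat.cast_one, Nat.cast_prod] at h2

/-- Analytic consequence of the relation lemma. -/
theorem relation_bound {S : Finset ℕ} (hS : ∀ p ∈ S, Nat.Prime p) {ι : Type} (s : Finset ι)
    {η : ℝ} (hη : 0 < η) {x : ℕ} (hx3 : 3 ≤ x) (hx4 : 4 ≤ η * Real.log x)
    (n : ι → ℕ) (hxn : ∀ i ∈ s, x ≤ n i) (k : ι → ℕ → ℕ) (hk : ∀ i ∈ s, Near S (1 - η) (n i) (k i))
    (a a' : ι → ℕ) (T w B : ℕ) (haB : ∀ i ∈ s, a i ≤ B) (ha'B : ∀ i ∈ s, a' i ≤ B)
    (hT : ∑ i ∈ s, a i * n i ≤ T) (hN : ∑ i ∈ s, a' i * n i ≤ ∑ i ∈ s, a i * n i)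
    (hw : ∀ p ∈ S, ∑ i ∈ s, a i * k i p ≤ ∑ i ∈ s, a' i * k i p + w)
    (hwx : (w : ℝ) * Real.log (∏ p ∈ S, (p : ℝ)) ≤ (η / 4) * (x * Real.log x))
    (hne : (∏ i ∈ s, ((n i).factorial) ^ (a i)) * ∏ i ∈ s, (su S (k i)) ^ (a' i) ≠
      (∏ i ∈ s, ((n i).factorial) ^ (a' i)) * ∏ i ∈ s, (su S (k i)) ^ (a i)) :
    (η / 4) * (x * Real.log x) ≤ 2 * s.card * B + (s.card * (B + 1)) * T := by
  have hrel := relation hS s n k a a' T w hT hN hw hne
  set L := (x : ℝ) * Real.log x with hL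
  have hlogx := one_le_log_of_three_le hx3
  have hx0 : (3 : ℝ) ≤ x := by exact_mod_cast hx3
  have hLpos : 0 < L := by rw [hL]; positivity
  -- upper bound of right-hand side
  have hup : ∑ i ∈ s, |(a i : ℝ) - a' i| *
        |Real.log ((n i).factorial) - Real.log (su S (k i))| ≤
      s.card * (B * Real.exp (-(η / 2) * L)) := by
    rw [← nsmul_eq_mul]
    refine Finset.sum_le_card_nsmul _ _ _ fun i hi => ?_
    have hni : x ≤ n i := hxn i hi
    have hnir : (x : ℝ) ≤ n i := by exact_mod_cast hni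
    have hlog : Real.log x ≤ Real.log (n i) := Real.log_le_log (by linarith) hnir
    have hPi : (0 : ℝ) < su S (k i) := by exact_mod_cast su_pos hS _
    have h4 : 4 ≤ η * Real.log (n i) := by nlinarith
    have hap := (approx hη (by omega) h4 hPi (hk i hi)).1
    have hLi : L ≤ (n i : ℝ) * Real.log (n i) := by
      rw [hL]; apply mul_le_mul hnir hlog (by linarith) (by positivity)
    have h5 : |Real.log ((n i).factorial) - Real.log (su S (k i))| ≤ Real.exp (-(η / 2) * L) :=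
      hap.trans (Real.exp_le_exp.mpr (by nlinarith))
    have h6 : |(a i : ℝ) - a' i| ≤ B := by
      have h7 : (a i : ℝ) ≤ B := by exact_mod_cast haB i hi
      have h8 : (a' i : ℝ) ≤ B := by exact_mod_cast ha'B i hi
      have h9 : (0 : ℝ) ≤ a i := by positivity
      have h10 : (0 : ℝ) ≤ a' i := by positivity
      rw [abs_le]; constructor <;> linarith
    exact mul_le_mul h6 h5 (abs_nonneg _) (by positivity)
  have hrel2 := hrel.trans hup
  set W := ∑ i ∈ s, (a i + 1) with hW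
  set Pr := ∏ p ∈ S, (p : ℝ) with hPr
  have hPr1 : 1 ≤ Pr := logprod_nonneg hS
  have hWle : W ≤ s.card * (B + 1) := by
    rw [hW, ← smul_eq_mul]
    exact Finset.sum_le_card_nsmul _ _ _ fun i hi => by have := haB i hi; omega
  set M := (2 : ℝ) ^ (W * T) * Pr ^ w with hM
  have hM1 : 1 ≤ M := by
    rw [hM]
    have h1 : (1 : ℝ) ≤ 2 ^ (W * T) := one_le_pow₀ (by norm_num)
    have h2 : (1 : ℝ) ≤ Pr ^ w := one_le_pow₀ hPr1
    nlinarith
  have h3 : 1 ≤ (M + 1) * (s.card * (B * Real.exp (-(η / 2) * L))) := by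
    rw [div_le_iff₀ (by linarith)] at hrel2
    linarith
  have h4 : M ≤ Real.exp ((s.card * (B + 1)) * T + (η / 4) * L) := by
    rw [Real.exp_add, hM]
    apply mul_le_mul
    · calc (2 : ℝ) ^ (W * T) ≤ (2 : ℝ) ^ (s.card * (B + 1) * T) :=
            pow_le_pow_right₀ (by norm_num) (Nat.mul_le_mul_right _ hWle)
        _ ≤ (Real.exp 1) ^ (s.card * (B + 1) * T) := by
            apply pow_le_pow_left₀ (by norm_num)
            have := Real.add_one_le_exp (1 : ℝ); linarith
        _ = Real.exp ((s.card * (B + 1)) * T) := by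
            rw [← Real.exp_nat_mul]; congr 1; push_cast; ring
    · calc Pr ^ w = Real.exp (w * Real.log Pr) := by
            rw [mul_comm, Real.exp_mul, Real.exp_log (by linarith), Real.rpow_natCast]
        _ ≤ Real.exp ((η / 4) * L) := Real.exp_le_exp.mpr hwx
    · positivity
    · positivity
  have h5 : (2 * s.card * B : ℝ) ≤ Real.exp (2 * s.card * B) := by
    have := Real.add_one_le_exp (2 * s.card * B : ℝ); linarith
  have h6 : (1 : ℝ) ≤ Real.exp (2 * s.card * B + ((s.card * (B + 1)) * T + (η / 4) * L)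
      + (-(η / 2) * L)) := by
    calc (1 : ℝ) ≤ (M + 1) * (s.card * (B * Real.exp (-(η / 2) * L))) := h3
      _ ≤ (2 * M) * (s.card * (B * Real.exp (-(η / 2) * L))) := by
          gcongr; linarith
      _ = (2 * s.card * B) * M * Real.exp (-(η / 2) * L) := by ring
      _ ≤ Real.exp (2 * s.card * B) * Real.exp ((s.card * (B + 1)) * T + (η / 4) * L)
          * Real.exp (-(η / 2) * L) := by gcongr
      _ = _ := by rw [← Real.exp_add, ← Real.exp_add]
  have h7 := (Real.one_le_exp_iff).mp h6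
  linarith

/-- No long chain of widely spaced exceptional integers in a moderately short window. -/
theorem chain {S : Finset ℕ} (hS : ∀ p ∈ S, Nat.Prime p) {η : ℝ} (hη : 0 < η) :
    ∃ K : ℝ, 1 ≤ K ∧ ∃ x0 : ℕ, ∀ A : ℕ, 1 ≤ A → ∀ x : ℕ, x0 ≤ x →
      K * (A : ℝ) ^ (2 * S.card + 1) ≤ Real.log x →
      ∀ n : Fin (S.card + 1) → ℕ, (∀ i, x ≤ n i ∧ n i ≤ A * x) → (∀ i j, i < j → 2 * n i ≤ n j) →
      ∀ k : Fin (S.card + 1) → ℕ → ℕ, (∀ i, Near S (1 - η) (n i) (k i)) → False := by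
  classical
  set t := S.card with ht
  set m := t + 1 with hm
  set Pr := ∏ p ∈ S, (p : ℝ) with hPr
  have hPr1 : 1 ≤ Pr := logprod_nonneg hS
  set σ := Real.log Pr with hσ
  have hσ0 : 0 ≤ σ := Real.log_nonneg hPr1
  set ε := η / (4 * (σ + 1)) with hε
  have hε0 : 0 < ε := by positivity
  have hεσ : ε * σ ≤ η / 4 := by
    rw [hε, div_mul_eq_mul_div, div_le_div_iff₀ (by positivity) (by norm_num)]
    nlinarith
  set c0 := ⌈12 * m / ε⌉₊ + 1 with hc0
  have hc0r : 12 * (m : ℝ) / ε ≤ (c0 : ℝ) - 1 := by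
    rw [hc0]; push_cast
    have := Nat.le_ceil (12 * (m : ℝ) / ε)
    linarith
  set K := 16 * (m : ℝ) ^ 2 * (c0 : ℝ) ^ (2 * t) / η + 1 with hK
  have hK1 : 1 ≤ K := by
    have : 0 ≤ 16 * (m : ℝ) ^ 2 * (c0 : ℝ) ^ (2 * t) / η := by positivity
    linarith
  -- thresholds
  set x0 := ⌈Real.exp (4 / η)⌉₊ + ⌈2 / ε⌉₊ + 2 * S.sup id + 5 with hx0
  refine ⟨K, hK1, x0, ?_⟩
  intro A hA x hx hKA n hn hch k hk
  have hx3 : 3 ≤ x := by omega
  have hxr : (3 : ℝ) ≤ x := by exact_mod_cast hx3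
  have hlogx := one_le_log_of_three_le hx3
  have hx4 : 4 ≤ η * Real.log x := by
    have h1 : Real.exp (4 / η) ≤ x := by
      have h2 := Nat.le_ceil (Real.exp (4 / η))
      have h3 : (⌈Real.exp (4 / η)⌉₊ : ℝ) ≤ x := by
        have : ⌈Real.exp (4 / η)⌉₊ ≤ x := by omega
        exact_mod_cast this
      linarith
    have h4 := (Real.le_log_iff_exp_le (by linarith)).mpr h1
    rw [div_le_iff₀ hη] at h4
    linarith
  have hsup : 2 * S.sup id + 2 ≤ x := by omega
  set L := (x : ℝ) * Real.log x with hL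
  have hLx : (x : ℝ) ≤ L := by rw [hL]; nlinarith
  have hLε : 2 ≤ ε * L := by
    have h2 := Nat.le_ceil (2 / ε)
    have h3 : (⌈2 / ε⌉₊ : ℝ) ≤ x := by
      have : ⌈2 / ε⌉₊ ≤ x := by omega
      exact_mod_cast this
    have h4 : 2 / ε ≤ L := by linarith
    rw [div_le_iff₀ hε0] at h4
    linarith
  have hAr : (1 : ℝ) ≤ A := by exact_mod_cast hA
  have hApow : (A : ℝ) ≤ (A : ℝ) ^ (2 * t + 1) := by
    calc (A : ℝ) = (A : ℝ) ^ 1 := (pow_one _).symm
      _ ≤ (A : ℝ) ^ (2 * t + 1) := pow_le_pow_right₀ hAr (by omega)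
  have hAlog : (A : ℝ) ≤ Real.log x := by
    have h1 : 0 ≤ (A : ℝ) ^ (2 * t + 1) := by positivity
    nlinarith
  have hAx : (A : ℝ) ≤ x := by
    have := Real.log_le_sub_one_of_pos (show (0 : ℝ) < x by linarith)
    linarith
  -- the box width
  set w := ⌊ε * L⌋₊ with hw
  have hwle : (w : ℝ) ≤ ε * L := Nat.floor_le (by linarith)
  have hwge : ε * L / 2 ≤ (w : ℝ) := by
    have := Nat.lt_floor_add_one (ε * L)
    linarith
  have hwpos : 0 < w := by
    have : (0 : ℝ) < w := by linarith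
    exact_mod_cast this
  set G := c0 * A with hG
  set B := G ^ t with hB
  have hc0pos : 0 < c0 := by omega
  have hGpos : 0 < G := Nat.mul_pos hc0pos (by omega)
  have hBpos : 0 < B := pow_pos hGpos _
  -- size of the exponents
  have hkb : ∀ i, ∀ p ∈ S, (k i p : ℝ) ≤ 6 * A * L := by
    intro i p hp
    have hni := hn i
    have hnir : (x : ℝ) ≤ n i := by exact_mod_cast hni.1
    have hnir2 : (n i : ℝ) ≤ A * x := by exact_mod_cast hni.2
    have hlog : Real.log x ≤ Real.log (n i) := Real.log_le_log (by linarith) hnir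
    have hPi : (0 : ℝ) < su S (k i) := by exact_mod_cast su_pos hS _
    have h4 : 4 ≤ η * Real.log (n i) := by nlinarith
    have hap := (approx hη (by omega) h4 hPi (hk i)).2
    have h5 := expo_bound hS (k i) hap hp
    have h6 : Real.log (n i) ≤ 2 * Real.log x := by
      have h7 : (n i : ℝ) ≤ x * x := by nlinarith
      have := Real.log_le_log (by linarith) h7
      rw [Real.log_mul (by linarith) (by linarith)] at this
      linarith
    have h8 : (n i : ℝ) * Real.log (n i) ≤ (A * x) * (2 * Real.log x) :=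
      mul_le_mul hnir2 h6 (by linarith) (by positivity)
    rw [hL]
    nlinarith
  -- the pigeonhole
  have hbound : ∀ (b : Fin m → Fin (B + 1)) (p : {p // p ∈ S}),
      (∑ i, (b i : ℕ) * k i p.1) / w < G * (B + 1) := by
    intro b p
    rw [Nat.div_lt_iff_lt_mul hwpos]
    have h1 : ((∑ i, (b i : ℕ) * k i p.1 : ℕ) : ℝ) ≤ m * (B * (6 * A * L)) := by
      push_cast
      have : ∑ i : Fin m, ((b i : ℕ) : ℝ) * (k i p.1 : ℝ) ≤
          (Finset.univ : Finset (Fin m)).card • ((B : ℝ) * (6 * A * L)) := by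
        refine Finset.sum_le_card_nsmul _ _ _ fun i _ => ?_
        apply mul_le_mul _ (hkb i p.1 p.2) (by positivity) (by positivity)
        exact_mod_cast Nat.lt_succ_iff.mp (b i).2
      rw [Finset.card_univ, Fintype.card_fin, nsmul_eq_mul] at this
      exact this
    have h2 : (m : ℝ) * (B * (6 * A * L)) < (G * (B + 1) * w : ℕ) := by
      push_cast
      rw [hG]; push_cast
      have hB0 : (0 : ℝ) < B := by exact_mod_cast hBpos
      have h3 : 12 * (m : ℝ) ≤ ((c0 : ℝ) - 1) * ε := by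
        rw [div_le_iff₀ hε0] at hc0r; exact hc0r
      have hL0 : 0 < L := by linarith
      have h5 : (m : ℝ) * (B * (6 * A * L)) ≤ ((c0 : ℝ) - 1) * A * B * (ε * L / 2) := by
        have : 0 ≤ (B : ℝ) * A * L := by positivity
        nlinarith
      have hc01 : (0 : ℝ) ≤ (c0 : ℝ) - 1 := by
        have : (1 : ℝ) ≤ c0 := by exact_mod_cast hc0pos
        linarith
      have h6 : ((c0 : ℝ) - 1) * A * B * (ε * L / 2) ≤ ((c0 : ℝ) - 1) * A * B * w := by
        apply mul_le_mul_of_nonneg_left hwge; positivity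
      have h7 : ((c0 : ℝ) - 1) * A * B * w < (c0 : ℝ) * A * (B + 1) * w := by
        have hw0 : (0 : ℝ) < w := by exact_mod_cast hwpos
        have hA0 : (0 : ℝ) < A := by linarith
        apply mul_lt_mul_of_pos_right _ hw0
        have : ((c0 : ℝ) - 1) * A * B = c0 * A * B - A * B := by ring
        have h8 : (c0 : ℝ) * A * (B + 1) = c0 * A * B + c0 * A := by ring
        have h9 : (0 : ℝ) < A * B := by positivity
        have h10 : (0 : ℝ) < c0 * A := by
          have : (0 : ℝ) < c0 := by exact_mod_cast hc0pos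
          positivity
        linarith
      linarith
    exact_mod_cast lt_of_le_of_lt h1 h2
  let f : (Fin m → Fin (B + 1)) → ({p // p ∈ S} → Fin (G * (B + 1))) :=
    fun b p => ⟨(∑ i, (b i : ℕ) * k i p.1) / w, hbound b p⟩
  have hcard : Fintype.card ({p // p ∈ S} → Fin (G * (B + 1))) <
      Fintype.card (Fin m → Fin (B + 1)) := by
    rw [Fintype.card_fun, Fintype.card_fun, Fintype.card_fin, Fintype.card_fin, Fintype.card_fin,
      Fintype.card_coe, ← ht, hm, pow_succ, mul_pow, ← hB, mul_comm]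
    exact Nat.mul_lt_mul_of_pos_left (by omega) (pow_pos (by omega) _)
  obtain ⟨b, b', hbb, hfb⟩ := Fintype.exists_ne_map_eq_of_card_lt f hcard
  -- the core argument
  have core : ∀ (c c' : Fin m → Fin (B + 1)), c ≠ c' → f c = f c' →
      ∑ i, (c' i : ℕ) * n i ≤ ∑ i, (c i : ℕ) * n i → False := by
    intro c c' hcc hfc hN
    have hw1 : ∀ p ∈ S, ∑ i, (c i : ℕ) * k i p ≤ ∑ i, (c' i : ℕ) * k i p + w := by
      intro p hp
      have h1 := congrFun hfc ⟨p, hp⟩
      have h2 : (∑ i, (c i : ℕ) * k i p) / w = (∑ i, (c' i : ℕ) * k i p) / w := by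
        simpa [f] using h1
      have h3 := Nat.lt_mul_div_succ (∑ i, (c i : ℕ) * k i p) hwpos
      have h4 := Nat.mul_div_le (∑ i, (c' i : ℕ) * k i p) w
      rw [h2] at h3
      rw [mul_add, mul_one] at h3
      omega
    have hne : (fun i => (c i : ℕ)) ≠ fun i => (c' i : ℕ) := by
      intro h
      apply hcc
      funext i
      exact Fin.ext (congrFun h i)
    have hnx := nonexact hS hsup n (fun i => (hn i).1) hch k (fun i => (c i : ℕ))
      (fun i => (c' i : ℕ)) hne
    have hTb : ∑ i, (c i : ℕ) * n i ≤ m * (B * (A * x)) := by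
      have : ∑ i : Fin m, (c i : ℕ) * n i ≤ (Finset.univ : Finset (Fin m)).card • (B * (A * x)) := by
        refine Finset.sum_le_card_nsmul _ _ _ fun i _ => ?_
        exact Nat.mul_le_mul (Nat.lt_succ_iff.mp (c i).2) (hn i).2
      rwa [Finset.card_univ, Fintype.card_fin, smul_eq_mul] at this
    have hfin := relation_bound hS (Finset.univ : Finset (Fin m)) hη hx3 hx4 n
      (fun i _ => (hn i).1) k (fun i _ => hk i) (fun i => (c i : ℕ)) (fun i => (c' i : ℕ))
      (m * (B * (A * x))) w B (fun i _ => Nat.lt_succ_iff.mp (c i).2)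
      (fun i _ => Nat.lt_succ_iff.mp (c' i).2) hTb hN hw1
      (by
        rw [← hPr, ← hσ, ← hL]
        calc (w : ℝ) * σ ≤ (ε * L) * σ := by gcongr
          _ = (ε * σ) * L := by ring
          _ ≤ (η / 4) * L := by gcongr) hnx
    rw [Finset.card_univ, Fintype.card_fin] at hfin
    push_cast at hfin
    -- numerical contradiction
    have hB1 : (1 : ℝ) ≤ B := by exact_mod_cast hBpos
    have hm1 : (1 : ℝ) ≤ m := by rw [hm]; push_cast; linarith [Nat.cast_nonneg (α := ℝ) t]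
    have hBG : (B : ℝ) ^ 2 * A = (c0 : ℝ) ^ (2 * t) * (A : ℝ) ^ (2 * t + 1) := by
      rw [hB, hG]; push_cast
      rw [← pow_mul, mul_pow, mul_comm t 2, pow_succ]; ring
    have hx1 : (1 : ℝ) ≤ x := by linarith
    have e1 : 2 * (m : ℝ) * B + (m * (B + 1)) * (m * (B * (A * x))) ≤
        4 * (m : ℝ) ^ 2 * (B ^ 2 * A) * x := by
      have u1 : 2 * (m : ℝ) * B ≤ 2 * (m : ℝ) ^ 2 * (B ^ 2 * A) * x := by
        have v0 : (1 : ℝ) ≤ m * B := by nlinarith
        have v1 : (m : ℝ) * B ≤ (m * B) * (m * B) := by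
          have := mul_le_mul_of_nonneg_left v0 (show (0 : ℝ) ≤ m * B by linarith)
          linarith
        have v2 : (m * B : ℝ) * (m * B) ≤ ((m * B) * (m * B)) * (A * x) := by
          have : (1 : ℝ) ≤ A * x := by nlinarith
          have v3 : (0 : ℝ) ≤ (m * B) * (m * B) := by positivity
          nlinarith
        nlinarith
      have u2 : ((m : ℝ) * (B + 1)) * (m * (B * (A * x))) ≤ 2 * (m : ℝ) ^ 2 * (B ^ 2 * A) * x := by
        have v1 : (B : ℝ) + 1 ≤ 2 * B := by linarith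
        have v2 : (0 : ℝ) ≤ m * (m * (B * (A * x))) := by positivity
        nlinarith
      linarith
    have e2 : (η / 4) * (x * Real.log x) ≤ 4 * (m : ℝ) ^ 2 * (B ^ 2 * A) * x := by
      rw [← hL]; linarith
    have e3 : η * Real.log x ≤ 16 * (m : ℝ) ^ 2 * (B ^ 2 * A) := by
      have hx0' : (0 : ℝ) < x := by linarith
      have : (η * Real.log x) * x ≤ (16 * (m : ℝ) ^ 2 * (B ^ 2 * A)) * x := by nlinarith
      exact le_of_mul_le_mul_right this hx0'
    have e4 : (K - 1) * (A : ℝ) ^ (2 * t + 1) = 16 * (m : ℝ) ^ 2 * (B ^ 2 * A) / η := by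
      rw [hBG, hK]; ring
    have e5 : Real.log x ≤ (K - 1) * (A : ℝ) ^ (2 * t + 1) := by
      rw [e4, le_div_iff₀ hη]; linarith
    have e6 : (0 : ℝ) < (A : ℝ) ^ (2 * t + 1) := by positivity
    nlinarith
  rcases le_total (∑ i, (b' i : ℕ) * n i) (∑ i, (b i : ℕ) * n i) with h | h
  · exact core b b' hbb hfb h
  · exact core b' b hbb.symm hfb.symm h

end Pool.Agent.Helper22.FSU
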