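import Pool.Agent.Helper22.FSU.Dyadic

namespace Pool.Agent.Helper22.FSU

open Finset

theorem greedy (Kd : ℕ) : ∀ (j : ℕ) (W : Finset ℕ),
    (∀ y ∈ W, (W.filter fun z => y ≤ z ∧ z < 2 * y).card ≤ Kd) → j * Kd < W.card →
    ∃ n : Fin (j + 1) → ℕ, (∀ i, n i ∈ W) ∧ ∀ i i', i < i' → 2 * n i ≤ n i' := by
  classical
  intro j
  induction j with
  | zero =>
    intro W _ hc
    have hne : W.Nonempty := by rw [← Finset.card_pos]; omega
    obtain ⟨y, hy⟩ := hne
    refine ⟨fun _ => y, fun _ => hy, fun i i' h => ?_⟩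
    have h1 := i.isLt
    have h2 := i'.isLt
    have h3 : i.val < i'.val := h
    omega
  | succ j ih =>
    intro W hW hc
    have hne : W.Nonempty := by rw [← Finset.card_pos]; omega
    set y := W.min' hne with hy
    have hyW : y ∈ W := Finset.min'_mem _ _
    have h1 := hW y hyW
    set W' := W.filter fun z => 2 * y ≤ z with hW'
    have hsplit : W ⊆ (W.filter fun z => y ≤ z ∧ z < 2 * y) ∪ W' := by
      intro z hz
      rw [Finset.mem_union, Finset.mem_filter, hW', Finset.mem_filter]
      have := Finset.min'_le W z hz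
      rcases lt_or_ge z (2 * y) with h | h
      · exact Or.inl ⟨hz, this, h⟩
      · exact Or.inr ⟨hz, h⟩
    have hcard := (Finset.card_le_card hsplit).trans (Finset.card_union_le _ _)
    have hc' : j * Kd < W'.card := by
      rw [Nat.succ_mul] at hc
      omega
    obtain ⟨n, hn, hch⟩ := ih W' (by
      intro z hz
      have hzW : z ∈ W := (Finset.mem_filter.mp hz).1
      refine le_trans (Finset.card_le_card ?_) (hW z hzW)
      exact Finset.filter_subset_filter _ (Finset.filter_subset _ _)) hc'
    refine ⟨Fin.cons y n, ?_, ?_⟩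
    · intro i
      refine Fin.cases ?_ (fun i => ?_) i
      · simpa using hyW
      · simpa using (Finset.mem_filter.mp (hn i)).1
    · intro i i' hii
      revert hii
      refine Fin.cases ?_ (fun i => ?_) i
      · refine Fin.cases ?_ (fun i' => ?_) i'
        · intro h; exact absurd h (lt_irrefl _)
        · intro _
          simpa using (Finset.mem_filter.mp (hn i')).2
      · refine Fin.cases ?_ (fun i' => ?_) i'
        · intro h; exact absurd h (by simp)
        · intro h
          simpa using hch i i' (by simpa using h)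

/-- Windows of ratio `A` contain a bounded number of exceptional integers. -/
theorem window {S : Finset ℕ} (hS : ∀ p ∈ S, Nat.Prime p) {η : ℝ} (hη : 0 < η) :
    ∃ K : ℝ, 1 ≤ K ∧ ∃ K2 x0 : ℕ, ∀ A : ℕ, 1 ≤ A → ∀ x : ℕ, x0 ≤ x →
      K * (A : ℝ) ^ (2 * S.card + 1) ≤ Real.log x → ∀ W : Finset ℕ,
      (∀ y ∈ W, x ≤ y ∧ y < A * x ∧ ∃ k, Near S (1 - η) y k) → W.card ≤ K2 := by
  classical
  obtain ⟨K, hK1, x1, hchain⟩ := chain hS hη
  obtain ⟨Kd, x2, hdy⟩ := dyadic hS hη
  refine ⟨K, hK1, S.card * Kd, x1 + x2, ?_⟩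
  intro A hA x hx hKA W hW
  by_contra hcon
  push Not at hcon
  obtain ⟨n, hn, hch⟩ := greedy Kd S.card W (by
    intro y hy
    apply hdy y (by have := (hW y hy).1; omega)
    intro z hz
    have hz' := Finset.mem_filter.mp hz
    exact ⟨hz'.2.1, hz'.2.2, (hW z hz'.1).2.2⟩) hcon
  choose k hk using fun i => (hW (n i) (hn i)).2.2
  exact hchain A hA x (by omega) hKA n
    (fun i => ⟨(hW (n i) (hn i)).1, (hW (n i) (hn i)).2.1.le⟩) hch k hk

theorem blocks (P : ℕ → Prop) [DecidablePred P] (x A K2 : ℕ) (hA : 1 ≤ A) : ∀ I : ℕ,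
    (∀ i < I, ((Finset.Ico (x * A ^ i) (x * A ^ (i + 1))).filter P).card ≤ K2) →
    ((Finset.Ico x (x * A ^ I)).filter P).card ≤ K2 * I := by
  intro I
  induction I with
  | zero => intro _; simp
  | succ I ih =>
    intro h
    have h1 := ih fun i hi => h i (by omega)
    have h2 := h I (by omega)
    have hle : x ≤ x * A ^ I := Nat.le_mul_of_pos_right _ (pow_pos (by omega) _)
    have hle2 : x * A ^ I ≤ x * A ^ (I + 1) :=
      Nat.mul_le_mul_left _ (Nat.pow_le_pow_right (by omega) (Nat.le_succ _))
    rw [← Finset.Ico_union_Ico_eq_Ico hle hle2, Finset.filter_union]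
    refine (Finset.card_union_le _ _).trans ?_
    rw [Nat.mul_succ]
    omega

/-- The exceptional set has counting function `O(log X / log log X)`. -/
theorem count_main {S : Finset ℕ} (hS : ∀ p ∈ S, Nat.Prime p) {C : ℝ} (hC : C < 1) :
    ∃ M : ℝ, ∀ X : ℕ, 3 ≤ X →
      (({n : ℕ | n ≤ X ∧ ∃ k, Near S C n k}.ncard : ℕ) : ℝ) ≤
        M * (Real.log X / Real.log (Real.log X)) := by
  classical
  obtain ⟨η, hη, hCη⟩ : ∃ η : ℝ, 0 < η ∧ C = 1 - η := ⟨1 - C, by linarith, by ring⟩
  subst hCη
  obtain ⟨K, hK1, K2, x1, hwin⟩ := window hS hη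
  obtain ⟨Kd, x2, hdy⟩ := dyadic hS hη
  set r := 2 * S.card + 1 with hr
  have hrpos : (0 : ℝ) < r := by rw [hr]; positivity
  have hr1 : (1 : ℝ) ≤ r := by rw [hr]; push_cast; linarith [Nat.cast_nonneg (α := ℝ) S.card]
  set x0 := x1 + x2 + 1 with hx0
  set U0 := 2 * Real.log K + 2 * r + 1 with hU0
  have hlogK : 0 ≤ Real.log K := Real.log_nonneg hK1
  set M := (Real.exp (Real.exp U0) + 1) + (x0 + Kd * 3 + K2 * (4 * r + 2)) with hM
  refine ⟨M, ?_⟩
  intro X hX
  have hXr : (3 : ℝ) ≤ X := by exact_mod_cast hX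
  set y := Real.log X with hy
  have hy1 : 1 < y := by
    rw [hy, Real.lt_log_iff_exp_lt (by linarith)]
    exact (Real.exp_one_lt_d9.trans (by norm_num)).trans_le hXr
  set u := Real.log y with hu
  have hu0 : 0 < u := Real.log_pos hy1
  set l := y / u with hl
  have hl1 : 1 ≤ l := by
    rw [hl, le_div_iff₀ hu0, one_mul, hu]
    have := Real.log_le_sub_one_of_pos (show 0 < y by linarith)
    linarith
  -- pass to a finite set
  have hset : {n : ℕ | n ≤ X ∧ ∃ k, Near S (1 - η) n k} =
      (((Finset.range (X + 1)).filter fun n => ∃ k, Near S (1 - η) n k : Finset ℕ) : Set ℕ) := by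
    ext n
    simp [Nat.lt_succ_iff]
  rw [hset, Set.ncard_coe_finset]
  set P : ℕ → Prop := fun n => ∃ k, Near S (1 - η) n k with hP
  have hterm1 : 0 ≤ Real.exp (Real.exp U0) + 1 := by positivity
  have hterm2 : (0 : ℝ) ≤ x0 + Kd * 3 + K2 * (4 * r + 2) := by positivity
  rcases lt_or_ge u U0 with hcase | hcase
  · -- small X
    have h1 : (X : ℝ) ≤ Real.exp (Real.exp U0) := by
      have h2 : y ≤ Real.exp U0 := by
        rw [← Real.exp_log (show 0 < y by linarith), ← hu]
        exact Real.exp_le_exp.mpr hcase.le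
      rw [← Real.exp_log (show (0 : ℝ) < X by linarith), ← hy]
      exact Real.exp_le_exp.mpr h2
    have h3 : ((((Finset.range (X + 1)).filter P).card : ℕ) : ℝ) ≤ X + 1 := by
      have := Finset.card_filter_le (Finset.range (X + 1)) P
      rw [Finset.card_range] at this
      exact_mod_cast this
    calc ((((Finset.range (X + 1)).filter P).card : ℕ) : ℝ) ≤ Real.exp (Real.exp U0) + 1 := by
          linarith
      _ ≤ M := by rw [hM]; linarith
      _ = M * 1 := (mul_one _).symm
      _ ≤ M * l := by
          apply mul_le_mul_of_nonneg_left hl1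
          rw [hM]; linarith
  · -- large X
    have hl0 : 0 < l := by linarith
    set z := (l / K) ^ ((1 : ℝ) / r) with hz
    have hlK : 0 < l / K := by positivity
    have hzpos : 0 < z := Real.rpow_pos_of_pos hlK _
    have hlogl : Real.log l = u - Real.log u := by
      rw [hl, Real.log_div (by linarith) hu0.ne', ← hu]
    have hlogu : Real.log u ≤ u / 4 + 1 / 2 := by
      have h1 := Real.log_le_sub_one_of_pos (show 0 < u / 4 by linarith)
      rw [Real.log_div hu0.ne' (by norm_num)] at h1
      have h2 : Real.log 4 ≤ 3 / 2 := by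
        have h3 : Real.log 4 = 2 * Real.log 2 := by
          rw [show (4 : ℝ) = 2 ^ 2 by norm_num, Real.log_pow]; norm_num
        have := Real.log_two_lt_d9
        rw [h3]; linarith
      linarith
    have hlogz : Real.log z = (1 / r) * (u - Real.log u - Real.log K) := by
      rw [hz, Real.log_rpow hlK, Real.log_div hl0.ne' (by linarith), hlogl]
    have hlog2 := Real.log_two_lt_d9
    have hlogz2 : u / (4 * r) + Real.log 2 ≤ Real.log z := by
      rw [hlogz]
      have h1 : u / (4 * r) + Real.log 2 = (1 / r) * (u / 4 + r * Real.log 2) := by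
        field_simp
      rw [h1]
      apply mul_le_mul_of_nonneg_left _ (by positivity)
      have h2 : r * Real.log 2 ≤ r := by nlinarith
      linarith
    have hz1 : 1 ≤ z := by
      have h0 : 0 ≤ Real.log z := by
        have : 0 ≤ u / (4 * r) := by positivity
        have := Real.log_two_gt_d9
        linarith
      by_contra hcon
      push Not at hcon
      have := Real.log_neg hzpos hcon
      linarith
    set A := ⌊z⌋₊ with hA
    have hAle : (A : ℝ) ≤ z := Nat.floor_le hzpos.le
    have hA1 : 1 ≤ A := by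
      rw [hA, Nat.one_le_floor_iff]; exact hz1
    have hA1r : (1 : ℝ) ≤ A := by exact_mod_cast hA1
    have hAge : z / 2 ≤ A := by
      have := Nat.lt_floor_add_one z
      linarith
    have hlogA : u / (4 * r) ≤ Real.log A := by
      have h1 : Real.log (z / 2) ≤ Real.log A := Real.log_le_log (by positivity) hAge
      rw [Real.log_div hzpos.ne' (by norm_num)] at h1
      linarith
    have hlogApos : 0 < Real.log A := lt_of_lt_of_le (by positivity) hlogA
    have hKAl : K * (A : ℝ) ^ r ≤ l := by
      have h1 : (A : ℝ) ^ r ≤ z ^ r := pow_le_pow_left₀ (by positivity) hAle r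
      have h2 : z ^ r = l / K := by
        rw [hz, ← Real.rpow_natCast, ← Real.rpow_mul hlK.le]
        rw [one_div, inv_mul_cancel₀ hrpos.ne', Real.rpow_one]
      rw [h2] at h1
      rw [le_div_iff₀ (by linarith)] at h1
      linarith
    set I1 := ⌈l / Real.log 2⌉₊ with hI1
    have hlog2gt := Real.log_two_gt_d9
    have hlog2pos : 0 < Real.log 2 := by linarith
    have hI1le : (I1 : ℝ) ≤ 2 * l + 1 := by
      have h1 := Nat.ceil_lt_add_one (show 0 ≤ l / Real.log 2 by positivity)
      have h2 : l / Real.log 2 ≤ 2 * l := by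
        rw [div_le_iff₀ hlog2pos]; nlinarith
      linarith
    set Z := x0 * 2 ^ I1 with hZ
    have hx0pos : 1 ≤ x0 := by omega
    have hlogZ : l ≤ Real.log Z := by
      have h1 : ((2 : ℝ) ^ I1) ≤ (Z : ℝ) := by
        rw [hZ]; push_cast
        have : (1 : ℝ) ≤ x0 := by exact_mod_cast hx0pos
        have h2 : (0 : ℝ) < 2 ^ I1 := by positivity
        nlinarith
      have h3 := Real.log_le_log (by positivity) h1
      rw [Real.log_pow] at h3
      have h4 := Nat.le_ceil (l / Real.log 2)
      rw [div_le_iff₀ hlog2pos] at h4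
      linarith
    set I2 := ⌈y / Real.log A⌉₊ + 1 with hI2
    have hI2le : (I2 : ℝ) ≤ 4 * r * l + 2 := by
      have h1 := Nat.ceil_lt_add_one (show 0 ≤ y / Real.log A by positivity)
      have h2 : y / Real.log A ≤ 4 * r * l := by
        rw [div_le_iff₀ hlogApos, hl]
        have h3 : 4 * r * (y / u) * (u / (4 * r)) = y := by field_simp
        calc y = 4 * r * (y / u) * (u / (4 * r)) := h3.symm
          _ ≤ 4 * r * (y / u) * Real.log A := by
              apply mul_le_mul_of_nonneg_left hlogA
              positivity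
      rw [hI2]; push_cast
      linarith
    have hXZ : X < Z * A ^ I2 := by
      have hZ1 : (1 : ℝ) ≤ Z := by
        have : 1 ≤ Z := Nat.mul_pos hx0pos (by positivity)
        exact_mod_cast this
      have h1 : (X : ℝ) < (A : ℝ) ^ I2 := by
        have h2 : y < I2 * Real.log A := by
          have h3 := Nat.le_ceil (y / Real.log A)
          rw [div_le_iff₀ hlogApos] at h3
          rw [hI2]; push_cast
          linarith
        rw [← Real.log_pow] at h2
        rw [hy] at h2
        exact (Real.log_lt_log_iff (by linarith) (by positivity)).mp h2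
      have h4 : (X : ℝ) < (Z * A ^ I2 : ℕ) := by
        push_cast
        have h5 : (0 : ℝ) < (A : ℝ) ^ I2 := by positivity
        nlinarith
      exact_mod_cast h4
    have hx0Z : x0 ≤ Z := Nat.le_mul_of_pos_right _ (by positivity)
    have hZZ : Z ≤ Z * A ^ I2 := Nat.le_mul_of_pos_right _ (pow_pos (by omega) _)
    have hb1 := blocks P x0 2 Kd (by norm_num) I1 (by
      intro i _
      apply hdy (x0 * 2 ^ i)
      · have : x0 ≤ x0 * 2 ^ i := Nat.le_mul_of_pos_right _ (by positivity)
        omega
      · intro v hv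
        have hv' := Finset.mem_filter.mp hv
        have hv2 := Finset.mem_Ico.mp hv'.1
        exact ⟨hv2.1, by rw [pow_succ] at hv2; linarith [hv2.2], hv'.2⟩)
    have hb2 := blocks P Z A K2 hA1 I2 (by
      intro i _
      have hZi : Z ≤ Z * A ^ i := Nat.le_mul_of_pos_right _ (pow_pos (by omega) _)
      apply hwin A hA1 (Z * A ^ i)
      · omega
      · have h1 : Real.log Z ≤ Real.log ((Z * A ^ i : ℕ) : ℝ) := by
          apply Real.log_le_log
          · have : 1 ≤ Z := Nat.mul_pos hx0pos (by positivity)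
            exact_mod_cast this
          · exact_mod_cast hZi
        linarith
      · intro v hv
        have hv' := Finset.mem_filter.mp hv
        have hv2 := Finset.mem_Ico.mp hv'.1
        exact ⟨hv2.1, by rw [pow_succ] at hv2; linarith [hv2.2], hv'.2⟩)
    have hsub : (Finset.range (X + 1)).filter P ⊆
        Finset.range x0 ∪ ((Finset.Ico x0 Z).filter P ∪
          (Finset.Ico Z (Z * A ^ I2)).filter P) := by
      intro v hv
      have hv' := Finset.mem_filter.mp hv
      have hv2 := Finset.mem_range.mp hv'.1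
      rw [Finset.mem_union, Finset.mem_union, Finset.mem_filter, Finset.mem_filter,
        Finset.mem_range, Finset.mem_Ico, Finset.mem_Ico]
      rcases lt_or_ge v x0 with h | h
      · exact Or.inl h
      · rcases lt_or_ge v Z with h' | h'
        · exact Or.inr (Or.inl ⟨⟨h, h'⟩, hv'.2⟩)
        · exact Or.inr (Or.inr ⟨⟨h', by omega⟩, hv'.2⟩)
    have hcard : ((Finset.range (X + 1)).filter P).card ≤ x0 + (Kd * I1 + K2 * I2) := by
      refine (Finset.card_le_card hsub).trans ?_
      refine (Finset.card_union_le _ _).trans ?_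
      rw [Finset.card_range]
      refine Nat.add_le_add_left ?_ _
      refine (Finset.card_union_le _ _).trans ?_
      exact Nat.add_le_add hb1 hb2
    have hcardr : ((((Finset.range (X + 1)).filter P).card : ℕ) : ℝ) ≤
        x0 + (Kd * I1 + K2 * I2) := by exact_mod_cast hcard
    have hKd0 : (0 : ℝ) ≤ Kd := by positivity
    have hK20 : (0 : ℝ) ≤ K2 := by positivity
    have hx00 : (0 : ℝ) ≤ x0 := by positivity
    have e1 : (Kd : ℝ) * I1 ≤ Kd * 3 * l := by
      have : (I1 : ℝ) ≤ 3 * l := by linarith
      nlinarith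
    have e2 : (K2 : ℝ) * I2 ≤ K2 * (4 * r + 2) * l := by
      have : (I2 : ℝ) ≤ (4 * r + 2) * l := by nlinarith
      nlinarith
    have e3 : (x0 : ℝ) ≤ x0 * l := by nlinarith
    have e4 : 0 ≤ (Real.exp (Real.exp U0) + 1) * l := by positivity
    rw [hM]
    nlinarith

end Pool.Agent.Helper22.FSU
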