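import Pool.Agent.Helper22.FSU.Chain

namespace Pool.Agent.Helper22.FSU

open Finset

theorem dvd_of_factorial_quot {y0 y y1 D : ℕ} (h1 : y0 < y) (h2 : y ≤ y1)
    (hD : y1.factorial = y0.factorial * D) : y ∣ D := by
  obtain ⟨E, hE⟩ := Nat.factorial_dvd_factorial h2
  obtain ⟨F, hF⟩ := Nat.factorial_dvd_factorial (show y0 ≤ y - 1 by omega)
  have hy : y.factorial = y * (y - 1).factorial := (Nat.mul_factorial_pred (by omega)).symm
  refine ⟨F * E, ?_⟩
  apply Nat.eq_of_mul_eq_mul_left (Nat.factorial_pos y0)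
  rw [← hD, hE, hy, hF]
  ring

theorem dyadic {S : Finset ℕ} (hS : ∀ p ∈ S, Nat.Prime p) {η : ℝ} (hη : 0 < η) :
    ∃ K x0 : ℕ, ∀ x : ℕ, x0 ≤ x → ∀ W : Finset ℕ,
      (∀ y ∈ W, x ≤ y ∧ y < 2 * x ∧ ∃ k, Near S (1 - η) y k) → W.card ≤ K := by
  classical
  set t := S.card with ht
  set Pr := ∏ p ∈ S, (p : ℝ) with hPr
  have hPr1 : 1 ≤ Pr := logprod_nonneg hS
  set σ := Real.log Pr with hσ
  have hσ0 : 0 ≤ σ := Real.log_nonneg hPr1
  set ε := η / (4 * (σ + 1)) with hε
  have hε0 : 0 < ε := by positivity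
  have hεσ : ε * σ ≤ η / 4 := by
    rw [hε, div_mul_eq_mul_div, div_le_div_iff₀ (by positivity) (by norm_num)]
    nlinarith
  set G := ⌈24 / ε⌉₊ + 1 with hG
  set x0 := ⌈Real.exp (49 / η)⌉₊ + ⌈2 / ε⌉₊ + t ^ t + 5 with hx0
  refine ⟨G ^ t * (t + 1), x0, ?_⟩
  intro x hx W hW
  by_contra hcon
  push Not at hcon
  have hx3 : 3 ≤ x := by omega
  have hxr : (3 : ℝ) ≤ x := by exact_mod_cast hx3
  have hlogx := one_le_log_of_three_le hx3
  have hx49 : 49 ≤ η * Real.log x := by
    have h1 : Real.exp (49 / η) ≤ x := by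
      have h2 := Nat.le_ceil (Real.exp (49 / η))
      have h3 : (⌈Real.exp (49 / η)⌉₊ : ℝ) ≤ x := by
        have : ⌈Real.exp (49 / η)⌉₊ ≤ x := by omega
        exact_mod_cast this
      linarith
    have h4 := (Real.le_log_iff_exp_le (by linarith)).mpr h1
    rw [div_le_iff₀ hη] at h4
    linarith
  have hx4 : 4 ≤ η * Real.log x := by linarith
  set L := (x : ℝ) * Real.log x with hL
  have hLx : (x : ℝ) ≤ L := by rw [hL]; nlinarith
  have hLε : 2 ≤ ε * L := by
    have h2 := Nat.le_ceil (2 / ε)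
    have h3 : (⌈2 / ε⌉₊ : ℝ) ≤ x := by
      have : ⌈2 / ε⌉₊ ≤ x := by omega
      exact_mod_cast this
    have h4 : 2 / ε ≤ L := by linarith
    rw [div_le_iff₀ hε0] at h4
    linarith
  set w := ⌊ε * L⌋₊ with hw
  have hwle : (w : ℝ) ≤ ε * L := Nat.floor_le (by linarith)
  have hwge : ε * L / 2 ≤ (w : ℝ) := by
    have := Nat.lt_floor_add_one (ε * L)
    linarith
  have hwpos : 0 < w := by
    have : (0 : ℝ) < w := by linarith
    exact_mod_cast this
  have hW' : ∀ y, ∃ k : ℕ → ℕ, y ∈ W → Near S (1 - η) y k := by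
    intro y
    by_cases hy : y ∈ W
    · obtain ⟨k, hk⟩ := (hW y hy).2.2
      exact ⟨k, fun _ => hk⟩
    · exact ⟨fun _ => 0, fun h => absurd h hy⟩
  choose k hk using hW'
  have hkb : ∀ y ∈ W, ∀ p ∈ S, (k y p : ℝ) ≤ 12 * L := by
    intro y hy p hp
    obtain ⟨hy1, hy2, -⟩ := hW y hy
    have hyr : (x : ℝ) ≤ y := by exact_mod_cast hy1
    have hyr2 : (y : ℝ) ≤ 2 * x := by exact_mod_cast hy2.le
    have hlog : Real.log x ≤ Real.log y := Real.log_le_log (by linarith) hyr
    have hPi : (0 : ℝ) < su S (k y) := by exact_mod_cast su_pos hS _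
    have h4 : 4 ≤ η * Real.log y := by nlinarith
    have hap := (approx hη (by omega) h4 hPi (hk y hy)).2
    have h5 := expo_bound hS (k y) hap hp
    have h6 : Real.log y ≤ 2 * Real.log x := by
      have h7 : (y : ℝ) ≤ x * x := by nlinarith
      have := Real.log_le_log (by linarith) h7
      rw [Real.log_mul (by linarith) (by linarith)] at this
      linarith
    have h8 : (y : ℝ) * Real.log y ≤ (2 * x) * (2 * Real.log x) :=
      mul_le_mul hyr2 h6 (by linarith) (by positivity)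
    rw [hL]
    nlinarith
  have hbound : ∀ y ∈ W, ∀ p ∈ S, k y p / w < G := by
    intro y hy p hp
    rw [Nat.div_lt_iff_lt_mul hwpos]
    have h1 := hkb y hy p hp
    have h2 : (12 * L : ℝ) < (G * w : ℕ) := by
      push_cast
      have h3 : 24 / ε ≤ (G : ℝ) - 1 := by
        rw [hG]; push_cast
        have := Nat.le_ceil (24 / ε)
        linarith
      rw [div_le_iff₀ hε0] at h3
      have h4 : 12 * L ≤ ((G : ℝ) - 1) * w := by
        have hG1 : (0 : ℝ) ≤ (G : ℝ) - 1 := by
          rw [hG]; push_cast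
          have : (0 : ℝ) ≤ ⌈24 / ε⌉₊ := by positivity
          linarith
        have h5 : ((G : ℝ) - 1) * (ε * L / 2) ≤ ((G : ℝ) - 1) * w :=
          mul_le_mul_of_nonneg_left hwge hG1
        have hL0 : 0 < L := by linarith
        nlinarith
      have hw0 : (0 : ℝ) < w := by exact_mod_cast hwpos
      linarith
    exact_mod_cast lt_of_le_of_lt h1 h2
  let f : ℕ → ({p // p ∈ S} → ℕ) := fun y p => k y p.1 / w
  let box : Finset ({p // p ∈ S} → ℕ) := Fintype.piFinset fun _ => Finset.range G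
  have hmaps : ∀ y ∈ W, f y ∈ box := by
    intro y hy
    rw [Fintype.mem_piFinset]
    intro p
    exact Finset.mem_range.mpr (hbound y hy p.1 p.2)
  have hboxcard : box.card = G ^ t := by
    simp only [box]
    rw [Fintype.card_piFinset]
    simp [ht]
  obtain ⟨c, -, hc⟩ := Finset.exists_lt_card_fiber_of_mul_lt_card_of_maps_to hmaps
    (n := t + 1) (by rw [hboxcard]; exact hcon)
  set V := W.filter fun y => f y = c with hV
  have hVne : V.Nonempty := by
    rw [← Finset.card_pos]; omega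
  set y0 := V.min' hVne with hy0
  set y1 := V.max' hVne with hy1
  have hy0V : y0 ∈ V := Finset.min'_mem _ _
  have hy1V : y1 ∈ V := Finset.max'_mem _ _
  have hspan : y0 + (t + 1) ≤ y1 := by
    have hsub : V ⊆ Finset.Icc y0 y1 := by
      intro y hy
      exact Finset.mem_Icc.mpr ⟨Finset.min'_le _ _ hy, Finset.le_max' _ _ hy⟩
    have := Finset.card_le_card hsub
    rw [Nat.card_Icc] at this
    omega
  have hy0W : y0 ∈ W := (Finset.mem_filter.mp hy0V).1
  have hy1W : y1 ∈ W := (Finset.mem_filter.mp hy1V).1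
  have hf0 : f y0 = c := (Finset.mem_filter.mp hy0V).2
  have hf1 : f y1 = c := (Finset.mem_filter.mp hy1V).2
  obtain ⟨hx_y0, hy0_2x, -⟩ := hW y0 hy0W
  obtain ⟨hx_y1, hy1_2x, -⟩ := hW y1 hy1W
  have hkw : ∀ p ∈ S, k y1 p ≤ k y0 p + w := by
    intro p hp
    have h1 : k y1 p / w = k y0 p / w := by
      have := congrFun (hf1.trans hf0.symm) ⟨p, hp⟩
      simpa [f] using this
    have h3 := Nat.lt_mul_div_succ (k y1 p) hwpos
    have h4 := Nat.mul_div_le (k y0 p) w
    rw [h1] at h3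
    rw [mul_add, mul_one] at h3
    omega
  have hnx : y1.factorial * su S (k y0) ≠ y0.factorial * su S (k y1) := by
    intro heq
    obtain ⟨D, hD⟩ := Nat.factorial_dvd_factorial (show y0 ≤ y1 by omega)
    have h1 : D * su S (k y0) = su S (k y1) := by
      apply Nat.eq_of_mul_eq_mul_left (Nat.factorial_pos y0)
      rw [← heq, hD]; ring
    refine not_all_smooth hS (k := k y1) (n := y0) (by rw [← ht]; omega) fun y hy => ?_
    rw [← ht] at hy
    have hy' := Finset.mem_Ioc.mp hy
    rw [← h1]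
    exact Dvd.dvd.mul_right (dvd_of_factorial_quot hy'.1 (by omega) hD) _
  have hfin := relation_bound hS (Finset.univ : Finset (Fin 2)) hη hx3 hx4 (![y1, y0])
    (by intro i _; fin_cases i <;> simp <;> omega) (![k y1, k y0])
    (by
      intro i _
      fin_cases i
      · exact hk y1 hy1W
      · exact hk y0 hy0W)
    (![1, 0]) (![0, 1]) (2 * x) w 1
    (by intro i _; fin_cases i <;> simp) (by intro i _; fin_cases i <;> simp)
    (by simp [Fin.sum_univ_two]; omega) (by simp [Fin.sum_univ_two]; omega)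
    (by intro p hp; simp [Fin.sum_univ_two]; exact hkw p hp)
    (by
      rw [← hPr, ← hσ, ← hL]
      calc (w : ℝ) * σ ≤ (ε * L) * σ := by gcongr
        _ = (ε * σ) * L := by ring
        _ ≤ (η / 4) * L := by gcongr)
    (by simp [Fin.prod_univ_two]; exact hnx)
  rw [Finset.card_univ, Fintype.card_fin] at hfin
  push_cast at hfin
  have h1 : (η / 4) * (x * Real.log x) ≤ 12 * x := by
    have : (1 : ℝ) ≤ x := by linarith
    nlinarith
  have h2 : (η * Real.log x) * x ≤ 48 * x := by nlinarith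
  have h3 : (49 : ℝ) * x ≤ 48 * x := by nlinarith
  linarith

end Pool.Agent.Helper22.FSU
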