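import Pool.Agent.Helper22.FSU.Approx

namespace Pool.Agent.Helper22.FSU

open Finset

theorem prime_mem_of_dvd_su {S : Finset ℕ} (hS : ∀ p ∈ S, Nat.Prime p) {k : ℕ → ℕ} {q : ℕ}
    (hq : q.Prime) (h : q ∣ su S k) : q ∈ S := by
  unfold su at h
  obtain ⟨p, hp, hqp⟩ := (Nat.Prime.prime hq).exists_mem_finset_dvd h
  have h1 := hq.dvd_of_dvd_pow hqp
  have h2 := (Nat.prime_dvd_prime_iff_eq hq (hS p hp)).mp h1
  rwa [h2]

theorem eq_prod_of_dvd_su {S : Finset ℕ} (hS : ∀ p ∈ S, Nat.Prime p) {k : ℕ → ℕ} {y : ℕ}
    (hy : 0 < y) (h : y ∣ su S k) : y = ∏ p ∈ S, p ^ (y.factorization p) := by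
  have hsub : y.factorization.support ⊆ S := by
    intro q hq
    rw [Nat.support_factorization] at hq
    exact prime_mem_of_dvd_su hS (Nat.prime_of_mem_primeFactors hq)
      ((Nat.dvd_of_mem_primeFactors hq).trans h)
  conv_lhs => rw [← Nat.prod_factorization_pow_eq_self hy.ne']
  exact Finsupp.prod_of_support_subset _ hsub _ (fun p _ => pow_zero p)

/-- Among `t + 1` consecutive integers beyond `t ^ t` not all are S-units. -/
theorem not_all_smooth {S : Finset ℕ} (hS : ∀ p ∈ S, Nat.Prime p) {k : ℕ → ℕ} {n : ℕ}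
    (hn : S.card ^ S.card ≤ n) (h : ∀ y ∈ Finset.Ioc n (n + (S.card + 1)), y ∣ su S k) : False := by
  classical
  set t := S.card with ht
  have key : ∀ y ∈ Finset.Ioc n (n + (t + 1)), ∃ p ∈ S, y ≤ (p ^ (y.factorization p)) ^ t := by
    intro y hy
    have hy' := Finset.mem_Ioc.mp hy
    have hy0 : 0 < y := by omega
    have heq := eq_prod_of_dvd_su hS hy0 (h y hy)
    rcases S.eq_empty_or_nonempty with hE | hE
    · exfalso
      rw [hE] at heq
      simp at heq
      rw [hE] at ht
      simp at ht
      rw [ht] at hn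
      simp at hn
      omega
    · obtain ⟨p, hp, hmax⟩ := Finset.exists_max_image S (fun p => p ^ (y.factorization p)) hE
      refine ⟨p, hp, ?_⟩
      calc y = ∏ q ∈ S, q ^ (y.factorization q) := heq
        _ ≤ (p ^ (y.factorization p)) ^ S.card := Finset.prod_le_pow_card _ _ _ hmax
        _ = _ := by rw [← ht]
  choose! g hg using key
  have hcard : S.card < (Finset.Ioc n (n + (t + 1))).card := by
    rw [Nat.card_Ioc]; omega
  obtain ⟨y, hy, y', hy', hne, heq⟩ := Finset.exists_ne_map_eq_of_card_lt_of_maps_to hcard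
    (fun y hy => (hg y hy).1)
  have main : ∀ y ∈ Finset.Ioc n (n + (t + 1)), ∀ y' ∈ Finset.Ioc n (n + (t + 1)), y < y' →
      g y = g y' → False := by
    intro y hy y' hy' hlt heq
    have h1 := Finset.mem_Ioc.mp hy
    have h2 := Finset.mem_Ioc.mp hy'
    obtain ⟨hp, hle⟩ := hg y hy
    obtain ⟨-, hle'⟩ := hg y' hy'
    set p := g y with hpdef
    rw [← heq] at hle'
    have hd : p ^ (y.factorization p) ∣ y := Nat.ordProj_dvd y p
    have hd' : p ^ (y'.factorization p) ∣ y' := Nat.ordProj_dvd y' p
    have hdiff : 0 < y' - y := by omega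
    have hdt : y' - y ≤ t := by omega
    rcases le_total (y.factorization p) (y'.factorization p) with hv | hv
    · have h3 : p ^ (y.factorization p) ∣ y' - y :=
        Nat.dvd_sub ((pow_dvd_pow p hv).trans hd') hd
      have h4 := Nat.le_of_dvd hdiff h3
      have h5 : (p ^ (y.factorization p)) ^ t ≤ t ^ t := Nat.pow_le_pow_left (h4.trans hdt) t
      omega
    · have h3 : p ^ (y'.factorization p) ∣ y' - y :=
        Nat.dvd_sub hd' ((pow_dvd_pow p hv).trans hd)
      have h4 := Nat.le_of_dvd hdiff h3
      have h5 : (p ^ (y'.factorization p)) ^ t ≤ t ^ t := Nat.pow_le_pow_left (h4.trans hdt) t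
      omega
  rcases lt_or_gt_of_ne hne with hlt | hlt
  · exact main y hy y' hy' hlt heq
  · exact main y' hy' y hy hlt heq.symm

/-- A nontrivial multiplicative relation between factorials of widely spaced integers is never
an exact relation between S-units. -/
theorem nonexact {S : Finset ℕ} (hS : ∀ p ∈ S, Nat.Prime p) {m x : ℕ}
    (hx : 2 * S.sup id + 2 ≤ x)
    (n : Fin m → ℕ) (hn : ∀ i, x ≤ n i) (hch : ∀ i j, i < j → 2 * n i ≤ n j)
    (k : Fin m → ℕ → ℕ) (a a' : Fin m → ℕ) (hne : a ≠ a') :
    (∏ i, ((n i).factorial) ^ (a i)) * ∏ i, (su S (k i)) ^ (a' i) ≠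
      (∏ i, ((n i).factorial) ^ (a' i)) * ∏ i, (su S (k i)) ^ (a i) := by
  classical
  intro heq
  have hex : ∃ j, a j ≠ a' j := by
    by_contra hcon
    push Not at hcon
    exact hne (funext hcon)
  obtain ⟨j, hj, hmax⟩ : ∃ j, a j ≠ a' j ∧ ∀ i, j < i → a i = a' i := by
    have hne' : (Finset.univ.filter fun i => a i ≠ a' i).Nonempty := by
      obtain ⟨j, hj⟩ := hex
      exact ⟨j, by simp [hj]⟩
    refine ⟨_, (Finset.mem_filter.mp (Finset.max'_mem _ hne')).2, fun i hi => ?_⟩
    by_contra hcon
    have : i ∈ (Finset.univ.filter fun i => a i ≠ a' i) := by simp [hcon]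
    exact absurd (Finset.le_max' _ _ this) (not_le.mpr hi)
  have hnj := hn j
  have hhalf : n j / 2 ≠ 0 := by omega
  obtain ⟨q, hq, hql, hqu⟩ := Nat.exists_prime_lt_and_le_two_mul (n j / 2) hhalf
  have hqn : q ≤ n j := by omega
  have hqS : q ∉ S := by
    intro hqS
    have : q ≤ S.sup id := Finset.le_sup (f := id) hqS
    omega
  have hsmall : ∀ i, i < j → (n i).factorial.factorization q = 0 := by
    intro i hi
    apply Nat.factorization_factorial_eq_zero_of_lt
    have := hch i j hi
    omega
  have hbig : (n j).factorial.factorization q ≠ 0 := by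
    have hdvd : q ∣ (n j).factorial := (Nat.Prime.dvd_factorial hq).mpr hqn
    exact (hq.factorization_pos_of_dvd (Nat.factorial_ne_zero _) hdvd).ne'
  have hsu0 : ∀ i, (su S (k i)).factorization q = 0 := by
    intro i
    apply Nat.factorization_eq_zero_of_not_dvd
    intro hdvd
    exact hqS (prime_mem_of_dvd_su hS hq hdvd)
  have hfac : ∀ (b b' : Fin m → ℕ), ((∏ i, ((n i).factorial) ^ (b i)) *
      ∏ i, (su S (k i)) ^ (b' i)).factorization q = ∑ i, b i * (n i).factorial.factorization q := by
    intro b b'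
    rw [Nat.factorization_mul, Nat.factorization_prod, Nat.factorization_prod]
    · simp [hsu0]
    · intro i _; exact pow_ne_zero _ (su_pos hS _).ne'
    · intro i _; exact pow_ne_zero _ (Nat.factorial_ne_zero _)
    · exact Finset.prod_ne_zero_iff.mpr fun i _ => pow_ne_zero _ (Nat.factorial_ne_zero _)
    · exact Finset.prod_ne_zero_iff.mpr fun i _ => pow_ne_zero _ (su_pos hS _).ne'
  have h1 := hfac a a'
  have h2 := hfac a' a
  rw [heq, h2] at h1
  have h3 : ∑ i, a' i * (n i).factorial.factorization q
      = a' j * (n j).factorial.factorization q +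
        ∑ i ∈ Finset.univ.erase j, a' i * (n i).factorial.factorization q :=
    (Finset.add_sum_erase _ (fun i => a' i * (n i).factorial.factorization q)
      (Finset.mem_univ j)).symm
  have h4 : ∑ i, a i * (n i).factorial.factorization q
      = a j * (n j).factorial.factorization q +
        ∑ i ∈ Finset.univ.erase j, a i * (n i).factorial.factorization q :=
    (Finset.add_sum_erase _ (fun i => a i * (n i).factorial.factorization q)
      (Finset.mem_univ j)).symm
  have h5 : ∑ i ∈ Finset.univ.erase j, a' i * (n i).factorial.factorization q =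
      ∑ i ∈ Finset.univ.erase j, a i * (n i).factorial.factorization q := by
    refine Finset.sum_congr rfl fun i hi => ?_
    have hij := Finset.ne_of_mem_erase hi
    rcases lt_or_gt_of_ne hij with hlt | hlt
    · rw [hsmall i hlt]; simp
    · rw [hmax i hlt]
  have h6 : a' j * (n j).factorial.factorization q = a j * (n j).factorial.factorization q := by
    omega
  exact hj (Nat.eq_of_mul_eq_mul_right (Nat.pos_of_ne_zero hbig) h6).symm

end Pool.Agent.Helper22.FSU
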